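import Pool.Agent.H27.L1.H34.GZ.Targets1

/-!
# Row EGY of the board gz (MP_52e316_nt): the energy in the cusp, tools
-/

set_option autoImplicit false

open Pool.Agent.H27.L1.H34.GM Pool.Agent.H27.L1.H34.GZ

namespace Pool.Agent.H27.L1.H72.GZ

/-- monotone majorants -/
lemma majo {m : ℕ} (a : Fin m → ℝ) (h0 : ∀ i, 0 < a i) (h : ∀ i j, i ≤ j → a i ≤ 2 ^ m * a j) :
    ∃ A : Fin m → ℝ, Monotone A ∧ (∀ j, a j ≤ A j) ∧ (∀ j, A j ≤ 2 ^ m * a j) ∧ ∀ j, 0 < A j := by
  have hne : ∀ j : Fin m, (Finset.univ.filter (fun i => i ≤ j)).Nonempty := fun j =>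
    ⟨j, by simp⟩
  refine ⟨fun j => (Finset.univ.filter (fun i => i ≤ j)).sup' (hne j) a, ?_, ?_, ?_, ?_⟩
  · intro j l hjl
    apply Finset.sup'_mono
    intro i hi
    rw [Finset.mem_filter] at hi ⊢
    exact ⟨hi.1, hi.2.trans hjl⟩
  · intro j
    exact Finset.le_sup' a (by simp)
  · intro j
    apply Finset.sup'_le
    intro i hi
    exact h i j (Finset.mem_filter.1 hi).2
  · intro j
    exact (h0 j).trans_le (Finset.le_sup' a (by simp))

lemma skw_pos {m : ℕ} (a : Fin m → ℝ) (h : ∀ i, 0 < a i) : 0 < skw a := by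
  unfold skw
  apply Finset.prod_pos
  intro i _
  apply Finset.prod_pos
  intro j _
  split_ifs
  · exact div_pos (h j) (h i)
  · norm_num

lemma skw_smul {m : ℕ} (a : Fin m → ℝ) (c : ℝ) (hc : c ≠ 0) : skw (fun i => c * a i) = skw a := by
  unfold skw
  apply Finset.prod_congr rfl
  intro i _
  apply Finset.prod_congr rfl
  intro j _
  split_ifs
  · rw [mul_div_mul_left _ _ hc]
  · rfl

lemma skw_le {m : ℕ} (a A : Fin m → ℝ) (h0 : ∀ i, 0 < a i) (h1 : ∀ j, a j ≤ A j)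
    (h2 : ∀ j, A j ≤ 2 ^ m * a j) : skw A ≤ ((2 : ℝ) ^ m) ^ (m * m) * skw a := by
  have hA : ∀ i, 0 < A i := fun i => (h0 i).trans_le (h1 i)
  have hp : (1 : ℝ) ≤ 2 ^ m := one_le_pow₀ (by norm_num)
  have h3 : skw A ≤ ∏ i : Fin m, ∏ j : Fin m, ((2 : ℝ) ^ m * if i < j then a j / a i else 1) := by
    unfold skw
    apply Finset.prod_le_prod
    · intro i _
      apply Finset.prod_nonneg
      intro j _
      split_ifs
      · exact (div_pos (hA j) (hA i)).le
      · norm_num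
    · intro i _
      apply Finset.prod_le_prod
      · intro j _
        split_ifs
        · exact (div_pos (hA j) (hA i)).le
        · norm_num
      · intro j _
        split_ifs
        · rw [← mul_div_assoc]
          exact div_le_div₀ (mul_nonneg (by positivity) (h0 j).le) (h2 j) (h0 i) (h1 i)
        · linarith
  refine h3.trans (le_of_eq ?_)
  unfold skw
  simp only [Finset.prod_mul_distrib, Finset.prod_const, Finset.card_univ, Fintype.card_fin,
    ← pow_mul]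
  rw [mul_assoc m m m]

/-- a weak form of Hadamard's inequality -/
lemma det_le {m : ℕ} (M : Mat m) : |M.det| ≤ m.factorial * ∏ i, rowN (M i) := by
  have h1 : ∀ i j, |M i j| ≤ rowN (M i) := by
    intro i j
    unfold rowN
    rw [← Real.sqrt_sq_eq_abs]
    apply Real.sqrt_le_sqrt
    exact Finset.single_le_sum (f := fun l => M i l ^ 2) (fun l _ => sq_nonneg _)
      (Finset.mem_univ j)
  rw [Matrix.det_apply]
  calc |∑ σ : Equiv.Perm (Fin m), Equiv.Perm.sign σ • ∏ i, M (σ i) i|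
      ≤ ∑ σ : Equiv.Perm (Fin m), |Equiv.Perm.sign σ • ∏ i, M (σ i) i| :=
        Finset.abs_sum_le_sum_abs _ _
    _ ≤ ∑ _σ : Equiv.Perm (Fin m), ∏ i, rowN (M i) := by
        apply Finset.sum_le_sum
        intro σ _
        have h2 : |Equiv.Perm.sign σ • ∏ i, M (σ i) i| = ∏ i, |M (σ i) i| := by
          rw [← Finset.abs_prod]
          rcases Int.units_eq_one_or (Equiv.Perm.sign σ) with h | h
          · rw [h, one_smul]
          · rw [h]
            simp
        rw [h2, ← Equiv.prod_comp σ (fun i => rowN (M i))]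
        exact Finset.prod_le_prod (fun i _ => abs_nonneg _) fun i _ => h1 _ _
    _ = _ := by
        rw [Finset.sum_const, Finset.card_univ, Fintype.card_perm, Fintype.card_fin, nsmul_eq_mul]

/-- the number of the intermediate subgroups does not depend on the basis -/
lemma NL_unit {m : ℕ} (x u : ZM m) (hu : IsUnit u) : NL (u * x) = NL x := by
  have h1 : ∀ (x u : ZM m) (M : AddSubgroup (Fin m → ℤ)), (∀ i, x i ∈ M) →
      ∀ i, (u * x) i ∈ M := by
    intro x u M h i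
    have e : (u * x) i = ∑ j, u i j • x j := by
      funext l
      rw [Matrix.mul_apply, Finset.sum_apply]
      apply Finset.sum_congr rfl
      intro j _
      rw [Pi.smul_apply, smul_eq_mul]
    rw [e]
    exact AddSubgroup.sum_mem _ fun j _ => AddSubgroup.zsmul_mem _ (h j) _
  obtain ⟨U, rfl⟩ := hu
  unfold NL
  have h2 : (fun M : AddSubgroup (Fin m → ℤ) => ∀ i, ((U : ZM m) * x) i ∈ M) =
      fun M => ∀ i, x i ∈ M := by
    funext M
    apply propext
    constructor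
    · intro h
      have h3 := h1 _ ((U⁻¹ : (ZM m)ˣ) : ZM m) M h
      have e : ((U⁻¹ : (ZM m)ˣ) : ZM m) * ((U : ZM m) * x) = x := by
        rw [← mul_assoc, Units.inv_mul, one_mul]
      rw [e] at h3
      exact h3
    · intro h
      exact h1 _ _ M h
  exact congrArg (fun P : AddSubgroup (Fin m → ℤ) → Prop => Nat.card {M // P M}) h2

/-- lower bound for the lengths -/
lemma a_low {m : ℕ} (a : Fin m → ℝ) (R : ℝ) (h0 : ∀ i, 0 < a i) (hR : 1 ≤ R)
    (h : ∀ i j, a j ≤ R * a i) (hp : 1 ≤ ∏ i, a i) (i : Fin m) : 1 ≤ R * a i := by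
  by_contra hcon
  push Not at hcon
  have h1 : ∏ j, a j ≤ (R * a i) ^ m := by
    calc ∏ j, a j ≤ ∏ _j : Fin m, R * a i := Finset.prod_le_prod (fun j _ => (h0 j).le)
          fun j _ => h i j
      _ = _ := by simp
  have hm : m ≠ 0 := fun h => by subst h; exact i.elim0
  have h2 : (R * a i) ^ m < 1 := pow_lt_one₀ (mul_nonneg (by linarith) (h0 i).le) hcon hm
  linarith

/-- upper bound for one factor -/
lemma one_factor {m : ℕ} (v : Fin m → ℝ) (R P : ℝ) (h1 : ∀ j, 1 ≤ R * v j) (hR : 1 ≤ R)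
    (h0 : ∀ i, 0 < v i) (hP : ∏ j, v j ≤ P) (i : Fin m) : v i ≤ R ^ m * P := by
  have h2 : R * v i ≤ ∏ j, R * v j := by
    rw [← Finset.mul_prod_erase Finset.univ (fun j => R * v j) (Finset.mem_univ i)]
    apply le_mul_of_one_le_right (by linarith [h1 i])
    calc (1 : ℝ) = ∏ _j ∈ Finset.univ.erase i, (1 : ℝ) := by simp
      _ ≤ _ := Finset.prod_le_prod (fun _ _ => zero_le_one) fun j _ => h1 j
  have h3 : ∏ j, R * v j = R ^ m * ∏ j, v j := by
    rw [Finset.prod_mul_distrib]; simp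
  rw [h3] at h2
  have h4 : v i ≤ R * v i := le_mul_of_one_le_left (h0 i).le hR
  exact (h4.trans h2).trans (mul_le_mul_of_nonneg_left hP (by positivity))

/-- the exponents of a dyadic majorant -/
lemma dyad (W Λ : ℝ) (hW : 0 < W) (h1 : 1 ≤ 2 ^ Λ * W) (h2 : W ≤ 2 ^ Λ) :
    W ≤ (2 : ℝ) ^ ⌈Real.logb 2 W⌉ ∧ (2 : ℝ) ^ ⌈Real.logb 2 W⌉ ≤ 2 * W ∧
      -Λ ≤ (⌈Real.logb 2 W⌉ : ℝ) ∧ (⌈Real.logb 2 W⌉ : ℝ) ≤ Λ + 1 := by
  obtain ⟨l, hl⟩ : ∃ l, l = Real.logb 2 W := ⟨_, rfl⟩
  have hWl : W = 2 ^ l := by rw [hl, Real.rpow_logb (by norm_num) (by norm_num) hW]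
  rw [← hl]
  have c1 := Int.le_ceil l
  have c2 := Int.ceil_lt_add_one l
  have e : (2 : ℝ) ^ ⌈l⌉ = 2 ^ ((⌈l⌉ : ℤ) : ℝ) := (Real.rpow_intCast 2 _).symm
  have h3 : l ≤ Λ := by
    rw [hWl] at h2
    exact (Real.rpow_le_rpow_left_iff (by norm_num)).1 h2
  have h4 : -Λ ≤ l := by
    rw [hWl, ← Real.rpow_add (by norm_num)] at h1
    have h5 : (2 : ℝ) ^ (0 : ℝ) ≤ 2 ^ (Λ + l) := by rw [Real.rpow_zero]; exact h1
    have := (Real.rpow_le_rpow_left_iff (by norm_num)).1 h5
    linarith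
  refine ⟨?_, ?_, by linarith, by linarith⟩
  · rw [e, hWl]
    exact Real.rpow_le_rpow_of_exponent_le (by norm_num) c1
  · rw [e, hWl]
    calc (2 : ℝ) ^ ((⌈l⌉ : ℤ) : ℝ) ≤ 2 ^ (1 + l) :=
          Real.rpow_le_rpow_of_exponent_le (by norm_num) (by linarith)
      _ = 2 * 2 ^ l := by rw [Real.rpow_add (by norm_num), Real.rpow_one]

end Pool.Agent.H27.L1.H72.GZ
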